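import Pool.Agent.H.MP_a29c66.A

set_option autoImplicit false

open Set Filter Topology TopologicalSpace
open Cardinal hiding univ

namespace Pool.Agent.H.MP_74305c
open PiNat

def X : Type := (ℕ → Bool) ⊕ (List Bool × Set ℝ)

def pa (a : ℕ → Bool) : X := .inl a
def pi (p : List Bool × Set ℝ) : X := .inr p

instance : TopologicalSpace X where
  IsOpen U := ∀ a, pa a ∈ U → ∃ n, ∃ S : Set (Set ℝ), #S ≤ 𝔠 ∧
    ∀ m ≥ n, ∀ t ∉ S, pi (res a m, t) ∈ U
  isOpen_univ := fun _ _ => ⟨0, ∅, by simp, fun _ _ _ _ => trivial⟩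
  isOpen_inter := fun _ _ hs ht a h => by
    obtain ⟨⟨n, S, a1, a2⟩, n', S', b1, b2⟩ := And.intro (hs a h.1) (ht a h.2)
    exact ⟨max n n', S ∪ S', (mk_union_le _ _).trans (add_le_of_le aleph0_le_continuum a1 b1),
      fun m hm t k => ⟨a2 m (le_of_max_le_left hm) t fun e => k (.inl e),
        b2 m (le_of_max_le_right hm) t fun e => k (.inr e)⟩⟩
  isOpen_sUnion := fun _ hs a ⟨t, h1, h2⟩ => (hs t h1 a h2).imp fun _ => Exists.imp fun _ h =>
    ⟨h.1, fun m a b c => ⟨t, h1, h.2 m a b c⟩⟩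

lemma small_closed {D : Set X} (h : #D ≤ 𝔠) : IsClosed D := ⟨fun _ _ =>
  ⟨0, Prod.snd '' (pi ⁻¹' D), mk_image_le.trans ((mk_preimage_of_injective _ _
    Sum.inr_injective).trans h), fun _ _ _ k e => k ⟨_, e, rfl⟩⟩⟩

lemma cd {D : Set X} (h : ∀ E ⊆ D, IsClosed E) : IsClosed D ∧ IsDiscrete D :=
  ⟨h D subset_rfl, isDiscrete_iff_forall_mem_exists_isOpen.2 fun x hx =>
    ⟨(D \ {x})ᶜ, (h _ sdiff_subset).isOpen_compl, by ext y; by_cases e : y = x <;> simp [e, hx]⟩⟩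

lemma small (x : X) (U : Set X) (hU : IsOpen U) (h : x ∈ U) :
    ∃ V, IsClopen V ∧ x ∈ V ∧ V ⊆ U ∧ ∀ a, pa a ∈ V → pa a = x := by
  rcases x with a | p
  · obtain ⟨n, S, s1, s2⟩ := hU a h
    refine ⟨insert (pa a) {y | ∃ m ≥ n, ∃ t ∉ S, y = pi (res a m, t)}, ⟨⟨fun b hb => ?_⟩,
      fun b hb => ?_⟩, .inl rfl, ?_, ?_⟩
    · obtain ⟨k, hk⟩ := Function.ne_iff.1 fun e : b = a => hb (.inl (e ▸ rfl))
      refine ⟨k + 1, ∅, by simp, fun m hm t _ => ?_⟩
      rintro (e | ⟨l, -, s, -, e⟩)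
      · cases e
      · have e := congrArg Prod.fst (Sum.inr.inj e)
        obtain rfl : m = l := by simpa using congrArg List.length e
        exact hk (res_eq_res.1 e hm)
    · obtain e | ⟨_, -, _, -, e⟩ := hb <;> cases e
      exact ⟨n, S, s1, fun m a t b => .inr ⟨m, a, t, b, rfl⟩⟩
    · rintro _ (rfl | ⟨m, a, t, b, rfl⟩)
      exacts [h, s2 m a t b]
    · rintro b (e | ⟨_, -, _, -, e⟩)
      exacts [e, by cases e]
  · exact ⟨{pi p}, ⟨small_closed
      ((mk_singleton _).le.trans (one_le_aleph0.trans aleph0_le_continuum)),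
      fun _ h => by cases h⟩, rfl, singleton_subset_iff.2 h, fun _ h => h⟩

instance : T1Space X := ⟨fun _ => small_closed
  ((mk_singleton _).le.trans (one_le_aleph0.trans aleph0_le_continuum))⟩

instance : T35Space X := MP_a29c66.t35 fun x U u h => (small x U u h).imp fun _ h =>
  ⟨h.1, h.2.1, h.2.2.1⟩

instance : Infinite X := .of_injective pa Sum.inl_injective

lemma not_tp : ∃ B : Set (Set X), IsTopologicalBasis B ∧ ∀ C ⊆ B, ⋃₀ C = univ →
    ¬ LocallyFinite fun c : C => c.1 := by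
  refine ⟨{U | IsOpen U ∧ {a | pa a ∈ U}.Subsingleton}, isTopologicalBasis_of_isOpen_of_nhds
    (fun _ h => h.1) fun x U h u => ?_, fun C c1 c2 c3 => ?_⟩
  · obtain ⟨V, v1, v2, v3, v4⟩ := small x U u h
    exact ⟨V, ⟨v1.2, fun a ha b hb => Sum.inl.inj ((v4 a ha).trans (v4 b hb).symm)⟩, v2, v3⟩
  · choose V v1 v2 using fun a => c2.ge (mem_univ (pa a))
    choose n S s1 s2 using fun a => (c1 (v1 a)).1 a (v2 a)
    obtain ⟨t, ht⟩ : ∃ t, t ∉ ⋃ a, S a := by
      by_contra! h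
      have := mk_iUnion_le S
      rw [eq_univ_of_forall h, mk_univ, mk_set, mk_real] at this
      exact (cantor 𝔠).not_ge (this.trans (mul_le_of_le aleph0_le_continuum (by simp)
        (ciSup_le' s1)))
    obtain ⟨s, hs⟩ : ∃ s, ((fun a => res a (n a)) ⁻¹' {s}).Infinite := by
      by_contra! h
      have : Uncountable (ℕ → Bool) := aleph0_lt_mk_iff.1 (by simp [aleph0_lt_continuum])
      refine not_countable_univ (α := ℕ → Bool) ((countable_iUnion fun s => (h s).countable).mono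
        fun a _ => mem_iUnion.2 ⟨res a (n a), rfl⟩)
    refine hs (.of_finite_image (f := fun a => (⟨V a, v1 a⟩ : C))
      ((c3.point_finite (pi (s, t))).subset ?_) fun a _ b _ e => (c1 (v1 a)).2 (v2 a) ?_)
    · rintro _ ⟨a, rfl, rfl⟩
      exact s2 a _ le_rfl t fun k => ht (mem_iUnion.2 ⟨a, k⟩)
    · exact (show V a = V b from congrArg Subtype.val e).ge (v2 b)

end Pool.Agent.H.MP_74305c
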